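import Mathlib
import Pool.Agent.Helper29_CF.Defs
import Pool.Agent.Helper29_CF.Stmt

/-!
Module BRIDGE of squad `cf`.
-/

namespace Pool.Agent.Helper29_CF.H69

open Finset

variable {V B : Type} [DecidableEq V] [DecidableEq B]

/-- double counting of incidences -/
theorem par (s : B → Finset V) (F : Finset B) (N : Finset V) :
    ∑ x ∈ N, deg s F x = ∑ b ∈ F, (N.filter (fun x => x ∈ s b)).card := by
  have h := Finset.sum_card_bipartiteAbove_eq_sum_card_bipartiteBelow
    (s := N) (t := F) (fun (x : V) (b : B) => x ∈ s b)
  simpa [Finset.bipartiteAbove, Finset.bipartiteBelow, deg] using h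

/-- two blocks through a point of degree one are equal -/
theorem eq_of_deg_one {s : B → Finset V} {F : Finset B} {p : V} (h : deg s F p = 1) {b b' : B}
    (hb : b ∈ F) (hb' : b' ∈ F) (hp : p ∈ s b) (hp' : p ∈ s b') : b = b' := by
  have hc : (F.filter (fun b => p ∈ s b)).card ≤ 1 := le_of_eq h
  rw [Finset.card_le_one] at hc
  exact hc b (by simp [hb, hp]) b' (by simp [hb', hp'])

/-- a block with two nodes and a point of degree one -/
theorem block_eq {s : B → Finset V} {F : Finset B} {f : B} {p : V} (h3 : (s f).card ≤ 3)
    (h2 : (nodes s F (s f)).card = 2) (hp : p ∈ s f) (hd : deg s F p = 1) :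
    s f = insert p (nodes s F (s f)) := by
  have hpn : p ∉ nodes s F (s f) := by
    simp [nodes, hd]
  have hsub : insert p (nodes s F (s f)) ⊆ s f := by
    intro x hx
    rcases Finset.mem_insert.1 hx with rfl | hx
    · exact hp
    · exact (Finset.mem_filter.1 hx).1
  have hcard : (insert p (nodes s F (s f))).card = 3 := by
    rw [Finset.card_insert_of_notMem hpn, h2]
  exact (Finset.eq_of_subset_of_card_le hsub (by rw [hcard]; exact h3)).symm

/-- closedness after removal of a block and its private point -/
theorem closed_erase {s : B → Finset V} {F : Finset B} {Q : Finset V} {f : B} {p : V}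
    (hQ : Closed s F Q) (hf : f ∈ F) (hp : p ∈ s f) (hd : deg s F p = 1) :
    Closed s (F.erase f) (Q.erase p) := by
  intro b hb
  obtain ⟨hbf, hbF⟩ := Finset.mem_erase.1 hb
  have hpb : p ∉ s b := fun h => hbf (eq_of_deg_one hd hbF hf h hp)
  rcases hQ b hbF with h | h
  · left
    intro x hx
    exact Finset.mem_erase.2 ⟨fun e => hpb (e ▸ hx), h hx⟩
  · right
    exact h.mono_right (Finset.erase_subset _ _)

theorem bridge : BridgeStmt := by
  intro V B _ _ _ _ s F Q f p hF hEO hf hfQ hp hd
  obtain ⟨⟨hQne, hQcl, hQmin⟩, hdeg, htwo, -⟩ := hEO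
  have h2 := htwo f hf hfQ
  have hsf := block_eq (hF f hf).2 h2 hp hd
  have hpQ : p ∈ Q := hfQ hp
  have hnode : ∀ x ∈ nodes s F (s f), x ∈ s f ∧ x ≠ p := by
    intro x hx
    obtain ⟨h1, h3⟩ := Finset.mem_filter.1 hx
    refine ⟨h1, ?_⟩
    rintro rfl
    omega
  refine ⟨?_, closed_erase hQcl hf hp hd, ?_⟩
  · have hne : (nodes s F (s f)).Nonempty := by
      rw [← Finset.card_pos, h2]; norm_num
    obtain ⟨a, ha⟩ := hne
    exact ⟨a, Finset.mem_erase.2 ⟨(hnode a ha).2, hfQ (hnode a ha).1⟩⟩
  · intro W hW hWne hWcl
    have hpW : p ∉ W := fun h => (Finset.mem_erase.1 (hW h)).1 rfl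
    have hWQ : W ⊆ Q := hW.trans (Finset.erase_subset _ _)
    have hother : ∀ b ∈ F, b ≠ f → p ∉ s b := fun b hb hne h =>
      hne (eq_of_deg_one hd hb hf h hp)
    -- number of nodes of f in W
    have hcase : ((nodes s F (s f)).filter (fun x => x ∈ W)).card ≤ 2 := by
      rw [← h2]; exact Finset.card_filter_le _ _
    have hfilt : ((nodes s F W).filter (fun x => x ∈ s f)) =
        ((nodes s F (s f)).filter (fun x => x ∈ W)) := by
      ext x
      simp only [nodes, Finset.mem_filter]
      tauto
    -- parity
    have hpar := par s F (nodes s F W)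
    have heven : Even (∑ x ∈ nodes s F W, deg s F x) := by
      apply Finset.even_sum
      intro x hx
      obtain ⟨hxW, hx2⟩ := Finset.mem_filter.1 hx
      rcases hdeg x (hWQ hxW) with h | h | h
      · omega
      · rw [h]; decide
      · rw [h]; decide
    have hrest : Even (∑ b ∈ F.erase f, ((nodes s F W).filter (fun x => x ∈ s b)).card) := by
      apply Finset.even_sum
      intro b hb
      obtain ⟨hbf, hbF⟩ := Finset.mem_erase.1 hb
      rcases hWcl b hb with h | h
      · have : ((nodes s F W).filter (fun x => x ∈ s b)) = nodes s F (s b) := by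
          ext x
          simp only [nodes, Finset.mem_filter]
          constructor
          · rintro ⟨⟨-, h2⟩, h3⟩
            exact ⟨h3, h2⟩
          · rintro ⟨h3, h2⟩
            exact ⟨⟨h h3, h2⟩, h3⟩
        rw [this, htwo b hbF (h.trans hWQ)]
        decide
      · have : ((nodes s F W).filter (fun x => x ∈ s b)) = ∅ := by
          ext x
          simp only [nodes, Finset.mem_filter, Finset.notMem_empty, iff_false]
          rintro ⟨⟨h1, -⟩, h3⟩
          exact (Finset.disjoint_left.1 h) h3 h1
        rw [this]
        simp
    rw [← Finset.add_sum_erase F _ hf] at hpar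
    rw [hpar, hfilt] at heven
    have heven2 : Even ((nodes s F (s f)).filter (fun x => x ∈ W)).card := by
      rcases Nat.even_or_odd ((nodes s F (s f)).filter (fun x => x ∈ W)).card with h | h
      · exact h
      · exact absurd heven (Nat.not_even_iff_odd.2 (h.add_even hrest))
    have h02 : ((nodes s F (s f)).filter (fun x => x ∈ W)).card = 0 ∨
        ((nodes s F (s f)).filter (fun x => x ∈ W)).card = 2 := by
      rcases heven2 with ⟨k, hk⟩
      omega
    rcases h02 with h0 | h0
    · exfalso
      rw [Finset.card_eq_zero] at h0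
      have hdis : Disjoint (s f) W := by
        rw [hsf, Finset.disjoint_left]
        intro x hx hxW
        rcases Finset.mem_insert.1 hx with rfl | hx
        · exact hpW hxW
        · have : x ∈ (nodes s F (s f)).filter (fun x => x ∈ W) :=
            Finset.mem_filter.2 ⟨hx, hxW⟩
          rw [h0] at this
          exact absurd this (Finset.notMem_empty _)
      have hclF : Closed s F W := by
        intro b hb
        by_cases hbf : b = f
        · subst hbf; exact Or.inr hdis
        · exact hWcl b (Finset.mem_erase.2 ⟨hbf, hb⟩)
      have := hQmin W hWQ hWne hclF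
      exact hpW (this ▸ hpQ)
    · have hall : ∀ x ∈ nodes s F (s f), x ∈ W := by
        have : (nodes s F (s f)).filter (fun x => x ∈ W) = nodes s F (s f) :=
          Finset.eq_of_subset_of_card_le (Finset.filter_subset _ _) (by rw [h0, h2])
        intro x hx
        rw [← this] at hx
        exact (Finset.mem_filter.1 hx).2
      have hclF : Closed s F (insert p W) := by
        intro b hb
        by_cases hbf : b = f
        · subst hbf
          left
          rw [hsf]
          exact Finset.insert_subset_insert _ hall
        · rcases hWcl b (Finset.mem_erase.2 ⟨hbf, hb⟩) with h | h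
          · exact Or.inl (h.trans (Finset.subset_insert _ _))
          · right
            rw [Finset.disjoint_insert_right]
            exact ⟨hother b hb hbf, h⟩
      have := hQmin (insert p W) (Finset.insert_subset hpQ hWQ) (Finset.insert_nonempty _ _)
        hclF
      rw [← this, Finset.erase_insert hpW]

end Pool.Agent.Helper29_CF.H69
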