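import Mathlib
import Pool.Agent.Helper29_CF.Defs
import Pool.Agent.Helper29_CF.Stmt
import Pool.Agent.Helper69_CF.Bridge

/-!
Module COMPT of squad `cf`.
-/

namespace Pool.Agent.Helper29_CF.H69

open Finset

variable {V B : Type} [DecidableEq V] [DecidableEq B]

theorem cdeg_add (s : B → Finset V) (C : Finset B) (c : B → Bool) (x : V) :
    cdeg s C c true x + cdeg s C c false x = deg s C x := by
  unfold cdeg deg
  rw [← Finset.card_union_of_disjoint]
  · congr 1
    ext b
    simp only [Finset.mem_union, Finset.mem_filter]
    rcases c b <;> simp <;> tauto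
  · rw [Finset.disjoint_left]
    intro b hb hb'
    simp only [Finset.mem_filter] at hb hb'
    rw [hb.2.2] at hb'
    simp at hb'

theorem cdeg_add' (s : B → Finset V) (C : Finset B) (c : B → Bool) (κ : Bool) (x : V) :
    cdeg s C c κ x + cdeg s C c (!κ) x = deg s C x := by
  cases κ
  · rw [add_comm]; exact cdeg_add s C c x
  · exact cdeg_add s C c x

/-- degree one: satisfied -/
theorem sat_of_deg_one {s : B → Finset V} {C : Finset B} (c : B → Bool) {x : V}
    (h : deg s C x = 1) : Sat s C c x := by
  have := cdeg_add s C c x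
  rw [h] at this
  by_cases h1 : cdeg s C c true x = 1
  · exact ⟨true, h1⟩
  · exact ⟨false, by omega⟩

/-- odd parity at degree 2 or 4: satisfied -/
theorem sat_of_odd {s : B → Finset V} {C : Finset B} {c : B → Bool} {x : V}
    (h : deg s C x = 2 ∨ deg s C x = 4) (h1 : ((cdeg s C c true x : ℕ) : ZMod 2) = 1) :
    Sat s C c x := by
  have hsum := cdeg_add s C c x
  have hodd : Odd (cdeg s C c true x) := by
    rw [← ZMod.natCast_eq_one_iff_odd]; exact h1
  rcases hodd with ⟨k, hk⟩
  rcases h with h | h
  · exact ⟨true, by omega⟩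
  · by_cases h2 : cdeg s C c true x = 1
    · exact ⟨true, h2⟩
    · exact ⟨false, by omega⟩

theorem cdeg_congr {s : B → Finset V} {C C' : Finset B} {c c' : B → Bool} {κ : Bool} {x : V}
    (h : ∀ b, x ∈ s b → (b ∈ C ↔ b ∈ C') ∧ (b ∈ C → c b = c' b)) :
    cdeg s C c κ x = cdeg s C' c' κ x := by
  unfold cdeg
  congr 1
  ext b
  simp only [Finset.mem_filter]
  constructor
  · rintro ⟨h1, h2, h3⟩
    exact ⟨(h b h2).1.1 h1, h2, by rw [← (h b h2).2 h1]; exact h3⟩
  · rintro ⟨h1, h2, h3⟩
    have h1' := (h b h2).1.2 h1
    exact ⟨h1', h2, by rw [(h b h2).2 h1']; exact h3⟩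

theorem deg_congr {s : B → Finset V} {C C' : Finset B} {x : V}
    (h : ∀ b, x ∈ s b → (b ∈ C ↔ b ∈ C')) : deg s C x = deg s C' x := by
  unfold deg
  congr 1
  ext b
  simp only [Finset.mem_filter]
  constructor
  · rintro ⟨h1, h2⟩
    exact ⟨(h b h2).1 h1, h2⟩
  · rintro ⟨h1, h2⟩
    exact ⟨(h b h2).2 h1, h2⟩

/-- the colour degrees with one more block through the point -/
theorem cdeg_insert {s : B → Finset V} {L : Finset B} {g : B} {c : B → Bool} {κ : Bool} {x : V}
    (hg : g ∉ L) (hx : x ∈ s g) :
    cdeg s (insert g L) c κ x = cdeg s L c κ x + if c g = κ then 1 else 0 := by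
  unfold cdeg
  rw [Finset.filter_insert]
  by_cases h : c g = κ
  · rw [if_pos ⟨hx, h⟩, if_pos h, Finset.card_insert_of_notMem (by simp [hg])]
  · rw [if_neg (fun hh => h hh.2), if_neg h]; rfl

theorem deg_insert {s : B → Finset V} {L : Finset B} {g : B} {x : V}
    (hg : g ∉ L) (hx : x ∈ s g) : deg s (insert g L) x = deg s L x + 1 := by
  unfold deg
  rw [Finset.filter_insert, if_pos hx, Finset.card_insert_of_notMem (by simp [hg])]

theorem sat_congr {s : B → Finset V} {C C' : Finset B} {c c' : B → Bool} {x : V}
    (h : ∀ b, x ∈ s b → (b ∈ C ↔ b ∈ C') ∧ (b ∈ C → c b = c' b)) (hS : Sat s C c x) :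
    Sat s C' c' x := by
  obtain ⟨κ, hκ⟩ := hS
  exact ⟨κ, by rw [← cdeg_congr h]; exact hκ⟩

/-- blocks of `F` through a point of a closed set are inside -/
theorem inside_iff {s : B → Finset V} {F : Finset B} {Q : Finset V} (hQ : Closed s F Q) {x : V}
    (hx : x ∈ Q) {b : B} (hb : x ∈ s b) : b ∈ inside s F Q ↔ b ∈ F := by
  constructor
  · intro h; exact (Finset.mem_filter.1 h).1
  · intro h
    refine Finset.mem_filter.2 ⟨h, ?_⟩
    rcases hQ b h with h1 | h1
    · exact h1
    · exact absurd hx (Finset.disjoint_left.1 h1 hb)

theorem compT (hcol : ColStmt) (htj : TJStmt) (hno : NoEOStmt) : CompTStmt := by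
  intro V B _ _ _ _ s F Q g hF hEO hg hgQ κ
  have hEO' := hEO
  obtain ⟨⟨hQne, hQcl, hQmin⟩, hdeg, htwo, hodd⟩ := hEO'
  obtain ⟨x, hx⟩ := Finset.card_eq_one.1 hgQ
  have hxg : x ∈ s g := (Finset.mem_inter.1 (hx ▸ Finset.mem_singleton_self x)).1
  have hxQ : x ∈ Q := (Finset.mem_inter.1 (hx ▸ Finset.mem_singleton_self x)).2
  have hother : ∀ y ∈ Q, y ≠ x → y ∉ s g := by
    intro y hy hne hyg
    have : y ∈ s g ∩ Q := Finset.mem_inter.2 ⟨hyg, hy⟩
    rw [hx] at this
    exact hne (Finset.mem_singleton.1 this)
  -- a block at x
  have hdx : 0 < deg s F x := by rcases hdeg x hxQ with h | h | h <;> omega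
  obtain ⟨f, hf'⟩ := Finset.card_pos.1 hdx
  obtain ⟨hf, hxf⟩ := Finset.mem_filter.1 hf'
  have hfQ : s f ⊆ Q := (Finset.mem_filter.1 ((inside_iff hQcl hxQ hxf).2 hf)).2
  rcases hdeg x hxQ with h1 | h24
  · -- private point
    obtain ⟨c, hc⟩ := hcol s (F.erase f) (Q.erase x)
      (fun b hb => (hF b (Finset.mem_of_mem_erase hb)).1) (closed_erase hQcl hf hxf h1)
      (by
        intro b hb hbQ
        rw [← htwo b (Finset.mem_of_mem_erase hb) (hbQ.trans (Finset.erase_subset _ _))]
        apply Finset.card_le_card
        intro y hy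
        obtain ⟨hy1, hy2⟩ := Finset.mem_filter.1 hy
        refine Finset.mem_filter.2 ⟨hy1, hy2.trans ?_⟩
        exact Finset.card_le_card (Finset.filter_subset_filter _ (Finset.erase_subset _ _)))
      (hno s F Q f x hF hEO hf hfQ hxf h1)
    have hsf := block_eq (hF f hf).2 (htwo f hf hfQ) hxf h1
    refine ⟨inside s (F.erase f) Q, ?_, ?_, Function.update c g κ, by simp, ?_⟩
    · exact (Finset.filter_subset _ _).trans (Finset.erase_subset _ _)
    · intro b hb; exact (Finset.mem_filter.1 hb).2
    · intro y hy
      left
      have hgL : g ∉ inside s (F.erase f) Q := fun h =>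
        hg (Finset.mem_of_mem_erase (Finset.mem_filter.1 h).1)
      by_cases hyx : y = x
      · subst hyx
        refine ⟨κ, ?_⟩
        rw [cdeg_insert hgL hxg, if_pos (by simp)]
        have : cdeg s (inside s (F.erase f) Q) (Function.update c g κ) κ y = 0 := by
          unfold cdeg
          rw [Finset.card_eq_zero, Finset.filter_eq_empty_iff]
          rintro b hb ⟨hyb, -⟩
          obtain ⟨hbf, hbF⟩ := Finset.mem_erase.1 (Finset.mem_filter.1 hb).1
          exact hbf (eq_of_deg_one h1 hbF hf hyb hxf)
        omega
      · -- other points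
        have hSat : Sat s (F.erase f) c y := by
          apply hc y (Finset.mem_erase.2 ⟨hyx, hy⟩)
          · by_cases hyf : y ∈ s f
            · rw [hsf] at hyf
              rcases Finset.mem_insert.1 hyf with h | h
              · exact absurd h hyx
              · obtain ⟨hyf', h2⟩ := Finset.mem_filter.1 h
                have : deg s F y = deg s (F.erase f) y + 1 := by
                  rw [← deg_insert (Finset.notMem_erase f F) hyf', Finset.insert_erase hf]
                omega
            · have : deg s F y = deg s (F.erase f) y := by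
                apply deg_congr
                intro b hb
                have : b ≠ f := fun e => hyf (e ▸ hb)
                simp [this]
              rw [← this]
              rcases hdeg y hy with h | h | h <;> omega
          · have : deg s (F.erase f) y ≤ deg s F y :=
              Finset.card_le_card (Finset.filter_subset_filter _ (Finset.erase_subset _ _))
            rcases hdeg y hy with h | h | h <;> omega
        refine sat_congr ?_ hSat
        intro b hyb
        have hbg : b ≠ g := fun e => hother y hy hyx (e ▸ hyb)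
        refine ⟨?_, fun _ => by rw [Function.update_of_ne hbg]⟩
        rw [Finset.mem_insert, inside, Finset.mem_filter]
        constructor
        · intro hb
          exact Or.inr ⟨hb, (Finset.mem_filter.1
            ((inside_iff hQcl hy hyb).2 (Finset.mem_of_mem_erase hb))).2⟩
        · rintro (h | h)
          · exact absurd h hbg
          · exact h.1
  · -- node
    have hxn : x ∈ nodes s F Q := Finset.mem_filter.2 ⟨hxQ, by omega⟩
    have hsum : ∑ y ∈ nodes s F Q, (if y = x then (0 : ZMod 2) else 1) = 0 := by
      rw [← Finset.add_sum_erase _ _ hxn, if_pos rfl, zero_add]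
      rw [Finset.sum_congr rfl (g := fun _ => (1 : ZMod 2))
        (fun y hy => by rw [if_neg (Finset.ne_of_mem_erase hy)])]
      rw [Finset.sum_const, Finset.card_erase_of_mem hxn, nsmul_one,
        ZMod.natCast_eq_zero_iff_even]
      rcases hodd with ⟨k, hk⟩
      rw [hk]
      exact ⟨k, by omega⟩
    obtain ⟨c, hcf, hc⟩ := htj s F Q (fun b hb => (hF b hb).1) hEO _ hsum f hf hfQ (!κ)
    have hgL : g ∉ inside s F Q := fun h => hg (Finset.mem_filter.1 h).1
    refine ⟨inside s F Q, Finset.filter_subset _ _, fun b hb => (Finset.mem_filter.1 hb).2,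
      Function.update c g κ, by simp, ?_⟩
    intro y hy
    by_cases hyx : y = x
    · subst hyx
      have hdL : deg s (inside s F Q) y = deg s F y := by
        apply deg_congr
        intro b hb
        exact inside_iff hQcl hy hb
      rcases h24 with h2 | h4
      · left
        refine ⟨κ, ?_⟩
        rw [cdeg_insert hgL hxg, if_pos (by simp)]
        have h0 : cdeg s (inside s F Q) (Function.update c g κ) κ y = cdeg s F c κ y := by
          apply cdeg_congr
          intro b hb
          refine ⟨inside_iff hQcl hy hb, fun h => ?_⟩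
          have : b ≠ g := fun e => hgL (e ▸ h)
          rw [Function.update_of_ne this]
        rw [h0]
        have heven := hc y hxn
        rw [if_pos rfl, ZMod.natCast_eq_zero_iff_even] at heven
        have hadd := cdeg_add s F c y
        have hadd' := cdeg_add' s F c κ y
        have hpos : 0 < cdeg s F c (!κ) y := by
          apply Finset.card_pos.2
          exact ⟨f, Finset.mem_filter.2 ⟨hf, hxf, hcf⟩⟩
        rcases heven with ⟨k, hk⟩
        cases κ
        · simp only [Bool.not_false] at hpos hadd'
          omega
        · simp only [Bool.not_true] at hpos hadd'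
          omega
      · right
        rw [deg_insert hgL hxg, hdL, h4]
    · left
      have hSat : Sat s F c y := by
        by_cases h1 : deg s F y = 1
        · exact sat_of_deg_one c h1
        · have h24' : deg s F y = 2 ∨ deg s F y = 4 := by
            rcases hdeg y hy with h | h | h
            · exact absurd h h1
            · exact Or.inl h
            · exact Or.inr h
          have hyn : y ∈ nodes s F Q := Finset.mem_filter.2 ⟨hy, by omega⟩
          have := hc y hyn
          rw [if_neg hyx] at this
          exact sat_of_odd h24' this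
      refine sat_congr ?_ hSat
      intro b hyb
      have hbg : b ≠ g := fun e => hother y hy hyx (e ▸ hyb)
      refine ⟨?_, fun _ => by rw [Function.update_of_ne hbg]⟩
      rw [Finset.mem_insert]
      constructor
      · intro hb
        exact Or.inr ((inside_iff hQcl hy hyb).2 hb)
      · rintro (h | h)
        · exact absurd h hbg
        · exact (Finset.mem_filter.1 h).1

end Pool.Agent.Helper29_CF.H69
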